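import Pool.Agent.N375.AV.Ex
import Pool.Agent.J6H45.PI.Use

/-!
# Oppermann's intervals and the values of compositions of additive functions

For an integer `n ≥ 1` the property `Opp c η n` says that every interval `(a, b]` inside `[n ^ 2 - n, n ^ 2 + n]` of length at
least `n ^ (1 - η)` contains at least `c (b - a) / log n` primes. In particular the intervals `[n ^ 2 - n, n ^ 2]` and
`[n ^ 2, n ^ 2 + n]` of Oppermann contain at least `c n / log n` primes (`A (n), B (n) ≥ c n / log n`), a positive proportion of
the expected number `n / (2 log n)`, in every part of them.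

Let `A = f_1 ∘ ⋯ ∘ f_r` be a composition of functions dominated by the largest prime factor: for example additive functions
`f` with `f (p^j) ≤ C p^j` at the prime powers, with different values at different large primes (such as the sum of the
prime factors), the largest prime factor itself, and Kempner's function. Let `G` be a function with steps bounded below by
a positive constant and growth at most `v ^ d`, and let `0.612 d + κ ≤ 1`. There are `b > 0` and `K` such that for all `m ≤ N`
but `K N exp (- b (log N) ^ (1 / (r + 1)))`, ALL the integers `n ≥ 1` with `|n - G(A m)| ≤ (A m) ^ κ` have this property, with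
absolute constants `c, η > 0`. The values of `A` are taken with very large multiplicities and `A(m)` is in general much
smaller than `m`, so this does not follow from a bound for the number of the exceptional `n ≤ X`. For example, both
intervals of Oppermann around `P ^ 2`, `P` the largest prime factor of `m`, contain at least `c P / log P` primes for all
`m ≤ N` but `K N exp (- b (log N) ^ (1 / 2))`.

Proof. (1) All poor intervals of length `X ^ (1 / 2 - η)` in `[1, X]` are near `O (X ^ (0.306 - η))` points; this is a theorem
of the starting files (`Pool.Agent.Q278.KT`: Heath-Brown's identity and large values of Dirichlet polynomials; helper240,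
helper278 and others), made for the multiplicative functions of sum zero and used only there. (2) So all integers `n ≤ X`
but `O (X ^ (0.612 - 2 η))` have the property `Opp c η` (`Pool.Agent.J6H45.PI.sparse_opp`). (3)
`Pool.Agent.N375.AV.windows_unif` (helper375).
-/

set_option autoImplicit false

namespace Pool.Agent.Results.MP_a8fbd7_nt.AdditiveIntervals

open Pool.Agent.N733.TG (Expanding expanding_pow)
open Pool.Agent.N375.AV (PD comp pd_additive pd_largest pd_kempner)
open Pool.Agent.J6H45.PI (Opp)

/-- **Oppermann's intervals and the values of compositions of additive functions.** (1) There are `c, η > 0` such that for all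
lists `fs` of functions dominated by the largest prime factor, all functions `G` with steps bounded below and growth at
most `v ^ d` and all `κ ≥ 0` with `0.612 d + κ ≤ 1` there are `b > 0` and `K` such that for all `m ≤ N` but
`K N exp (- b (log N) ^ (1 / (r + 1)))`, `r` the length of the list, with `v = A(m)`, all `n ≥ 1` with `|n - G(v)| ≤ v ^ κ` satisfy
`Opp c η n`: every interval `(a, b]` inside `[n ^ 2 - n, n ^ 2 + n]` with `b - a ≥ n ^ (1 - η)` contains at least
`c (b - a) / log n` primes. (2) Examples for the functions in the list. (3) Examples for `G`. -/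
theorem result :
    (∃ c η : ℝ, 0 < c ∧ 0 < η ∧ ∀ fs : List (ℕ → ℕ), (∀ f ∈ fs, PD f) → ∀ (G : ℕ → ℝ) (d : ℝ), Expanding G d →
      ∀ κ : ℝ, 0 ≤ κ → 0.612 * d + κ ≤ 1 → ∃ b K : ℝ, 0 < b ∧ ∀ N : ℕ, 1 ≤ N →
        ({m : ℕ | 1 ≤ m ∧ m ≤ N ∧ ¬ ∀ n : ℕ, 1 ≤ n →
          |(n : ℝ) - G (comp fs m)| ≤ (comp fs m : ℝ) ^ κ → Opp c η n}.ncard : ℝ) ≤
            K * N * Real.exp (-(b * Real.log N ^ ((1 : ℝ) / (fs.length + 1))))) ∧
    ((∀ f : ℕ → ℕ, (∀ a b : ℕ, Nat.Coprime a b → f (a * b) = f a + f b) →
        (∃ C : ℕ, ∀ p j : ℕ, p.Prime → 1 ≤ j → f (p ^ j) ≤ C * p ^ j) →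
        (∃ P : ℕ, ∀ p p' : ℕ, p.Prime → p'.Prime → P ≤ p → P ≤ p' → f p = f p' → p = p') → PD f) ∧
      PD (fun n => n.primeFactors.sup id) ∧ PD (fun n => sInf {k : ℕ | n ∣ k.factorial})) ∧
    (∀ α d : ℝ, 0 < α → 1 ≤ d → Expanding (fun v : ℕ => α * (v : ℝ) ^ d) d) := by
  refine ⟨?_, ⟨fun f h1 h2 h3 => pd_additive h1 h2 h3, pd_largest, pd_kempner⟩, fun α d hα hd => expanding_pow hα hd⟩
  obtain ⟨c, η, C, hc, hη, hη1, hC⟩ := Pool.Agent.J6H45.PI.sparse_opp
  refine ⟨c, η, hc, hη, fun fs hfs G d hG κ hκ h1 => ?_⟩
  have hd : 1 ≤ d := hG.one_le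
  have hη2 : η < 0.306 := hη1
  norm_num at hη2
  obtain ⟨b, K, hb, H⟩ := Pool.Agent.J6H45.WF.add fs hfs hG (s := 0.612 - 2 * η) (κ := κ) (by
    norm_num
    linarith) hκ (by nlinarith) C
  exact ⟨b, K, hb, fun N hN => H _ hC N hN⟩

end Pool.Agent.Results.MP_a8fbd7_nt.AdditiveIntervals
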