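import Pool.Agent.J6H45.PI.Use

/-!
# Oppermann's intervals and the orbits of Euler's function

For an integer `n ≥ 1` the property `Opp c η n` says that every interval `(a, b]` inside `[n ^ 2 - n, n ^ 2 + n]` of length at
least `n ^ (1 - η)` contains at least `c (b - a) / log n` primes. In particular the intervals `[n ^ 2 - n, n ^ 2]` and
`[n ^ 2, n ^ 2 + n]` of Oppermann contain at least `c n / log n` primes (`A (n), B (n) ≥ c n / log n`), a positive proportion of
the expected number `n / (2 log n)`, in every part of them.

Let `φ_l` be the `l`-th iterate of Euler's function, `φ_0 (m) = m`, and let `g` be a positive multiplicative function of at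
most polynomial growth such that `g p ≤ M p` for the large primes `p`, with different values at different large primes; for
example the identity, Euler's function or the sum of the divisors. Let `G` be a function with steps bounded below by a
positive constant and growth at most `v ^ d`, for example `G v = α v ^ d`, and let `0.612 d + κ ≤ 1`. For all `L`, almost all
`m` and all `l ≤ L`, with `v = g (φ_l (m))`, ALL the integers `n ≥ 1` with `|n - G(v)| ≤ v ^ κ` have this property, with
absolute constants `c, η > 0`. For example: for almost all `m`, for all `l ≤ L` and `v = φ_l (m)`, all `n` at distance at most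
`v ^ 0.388` from `v`, and the integer parts of `v ^ 1.63`.

The iterates of Euler's function are not multiplicative, their values form a thin set and are taken with very large
multiplicities, and so a bound for the number of the exceptional `n ≤ X` (a power saving) does not suffice by itself.

Proof. (1) All poor intervals of length `X ^ (1 / 2 - η)` in `[1, X]` are near `O (X ^ (0.306 - η))` points; this is a theorem
of the starting files (`Pool.Agent.Q278.KT`: Heath-Brown's identity and large values of Dirichlet polynomials; helper240,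
helper278 and others), made for the multiplicative functions of sum zero and used only there. (2) So all integers `n ≤ X`
but `O (X ^ (0.612 - 2 η))` have the property `Opp c η` (`Pool.Agent.J6H45.PI.sparse_opp`). (3) The orbits of Euler's function
avoid sets with a power saving (`Pool.Agent.N760.IT.densW`, helper760).
-/

set_option autoImplicit false

namespace Pool.Agent.Results.MP_a8fbd7_nt.OrbitIntervals

open Pool.Agent.N733.TG (LM Expanding lm_totient lm_sigma expanding_pow)
open Pool.Agent.N760.IT (orb lm_id)
open Pool.Agent.J6H45.PI (Opp)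

/-- **Oppermann's intervals and the orbits of Euler's function.** (1) There are `c, η > 0` such that for all multiplicative
functions `g` as above, all functions `G` with steps bounded below and growth at most `v ^ d`, all `κ ≥ 0` with
`0.612 d + κ ≤ 1`, all `L` and `ε > 0` and all large `N`: for all `m ≤ N` but `ε N`, for all `l ≤ L`, with `v = g(φ_l(m))`
(`orb g l m`), all `n ≥ 1` with `|n - G(v)| ≤ v ^ κ` satisfy `Opp c η n`: every interval `(a, b]` inside
`[n ^ 2 - n, n ^ 2 + n]` with `b - a ≥ n ^ (1 - η)` contains at least `c (b - a) / log n` primes. (2) Examples for `g`. (3) Examples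
for `G`. -/
theorem result :
    (∃ c η : ℝ, 0 < c ∧ 0 < η ∧ ∀ g : ℕ → ℕ, LM g → ∀ (G : ℕ → ℝ) (d : ℝ), Expanding G d →
      ∀ κ : ℝ, 0 ≤ κ → 0.612 * d + κ ≤ 1 → ∀ (L : ℕ) (ε : ℝ), 0 < ε → ∃ N₀ : ℕ, ∀ N : ℕ, N₀ ≤ N →
        ({m : ℕ | 1 ≤ m ∧ m ≤ N ∧ ¬ ∀ l ≤ L, ∀ n : ℕ, 1 ≤ n →
          |(n : ℝ) - G (orb g l m)| ≤ (orb g l m : ℝ) ^ κ → Opp c η n}.ncard : ℝ) ≤ ε * N) ∧
    (LM (fun m => m) ∧ LM Nat.totient ∧ LM (fun m => ∑ d ∈ m.divisors, d)) ∧
    (∀ α d : ℝ, 0 < α → 1 ≤ d → Expanding (fun v : ℕ => α * (v : ℝ) ^ d) d) := by
  refine ⟨?_, ⟨lm_id, lm_totient, lm_sigma⟩, fun α d hα hd => expanding_pow hα hd⟩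
  obtain ⟨c, η, C, hc, hη, hη1, hC⟩ := Pool.Agent.J6H45.PI.sparse_opp
  refine ⟨c, η, hc, hη, fun g hg G d hG κ hκ h1 L ε hε => ?_⟩
  have hd : 1 ≤ d := hG.one_le
  have hη2 : η < 0.306 := hη1
  norm_num at hη2
  obtain ⟨N₀, hN₀⟩ := Pool.Agent.J6H45.WF.orbit hg hG (s := 0.612 - 2 * η) (κ := κ) (by
    norm_num
    linarith) hκ (by nlinarith) C L ε hε
  exact ⟨N₀, fun N hN => hN₀ N hN _ hC⟩

end Pool.Agent.Results.MP_a8fbd7_nt.OrbitIntervals
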