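import Pool.Agent.J6H45.PI.Use
import Pool.Agent.J6H45.WF.Poly

/-!
# Oppermann's intervals around functions of the values of polynomials at approximation vectors

For an integer `n ≥ 1` the property `Opp c η n` says that every interval `(a, b]` inside `[n ^ 2 - n, n ^ 2 + n]` of length at
least `n ^ (1 - η)` contains at least `c (b - a) / log n` primes. In particular the intervals `[n ^ 2 - n, n ^ 2]` and
`[n ^ 2, n ^ 2 + n]` of Oppermann contain at least `c n / log n` primes (`A (n), B (n) ≥ c n / log n`), a positive proportion of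
the expected number `n / (2 log n)`, in every part of them.

Let `k ≥ 1`, `D` and `r` be natural numbers, `γ ∈ ℝ^r` and `τ > 0`, let `G` be a function with steps bounded below by a
positive constant and growth at most `v ^ d`, and let `0 ≤ κ ≤ 1`. For all real matrices `α` with `k` rows and `r` columns
outside a set of Hausdorff dimension at most `(k - 1) r + (r + k - 1 + D (d (0.612 - 2 η) + κ)) / (1 + τ)`, for ALL nonconstant
polynomials `F` in `k` variables with integral coefficients and of degree at most `D`, and for all real `c'`: for all large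
integer vectors `v` with `‖(v α)_j - γ_j‖ ≤ c' |v| ^ (-τ)` for all `j`, where `‖x‖` is the distance of `x` to the nearest
integer, the integer `w = |F(v)|` is not `0`, and ALL integers `n ≥ 1` with `|n - G (w)| ≤ w ^ κ` have this property, with
absolute constants `c, η > 0`.

For `τ = k / r`, `γ = 0` and `c' = 1` these are all the best approximation vectors `v` of the system `α` of `r` linear forms
in `k` variables, and the bound for the dimension is less than `k r` if `D (0.612 d + κ) ≤ 1`. For example
(`k = r = D = 1`, `G (w) = w`, `κ = 0`): for all real numbers `α` outside a set of dimension less than `0.806`, for all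
convergents `p / q` of `α` with large `q`, both intervals of Oppermann around `q ^ 2` contain at least `c q / log q` primes.

Proof. (1) All poor intervals of length `X ^ (1 / 2 - η)` in `[1, X]` are near `O (X ^ (0.306 - η))` points; this is a theorem
of the starting files (`Pool.Agent.Q278.KT`: Heath-Brown's identity and large values of Dirichlet polynomials; helper240,
helper278 and others), made for the multiplicative functions of sum zero and used only there. (2) So all integers `n ≤ X`
but `O (X ^ (0.612 - 2 η))` have the property `Opp c η` (`Pool.Agent.J6H45.PI.sparse_opp`), and for all `w ≤ X` but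
`O (X ^ (d (0.612 - 2 η) + κ))` all `n` near `G (w)` have it (`Pool.Agent.N375.MV.nearG_count_unif`). (3) There are
`O (X ^ (k - 1 + D (d (0.612 - 2 η) + κ) + ε))` vectors `v` in the box of size `X` with `|F(v)|` exceptional, by the lemma of
Schwartz and Zippel (`Pool.Agent.J6H45.WF.thin_poly`). (4) The metric theorem `Pool.Agent.N671.DA.approx_vectors` (helper671).
-/

set_option autoImplicit false

open Finset

namespace Pool.Agent.Results.MP_a8fbd7_nt.PolynomialsAtApproximations

open Pool.Agent.N671.DA (Near)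
open Pool.Agent.N733.TG (Expanding expanding_pow NearG)
open Pool.Agent.J6H45.PI (Opp)
open Pool.Agent.J6H45.WF (Sparse NearV sparse_set near_of_not)

lemma sparse_near {C s κ d : ℝ} (hs : 0 ≤ s) {Good : ℕ → Prop} (h : Sparse C s Good) {G : ℕ → ℝ} (hG : Expanding G d)
    (hκ : 0 ≤ κ) (hκ1 : κ ≤ 1) : ∃ K : ℝ, 0 ≤ K ∧ Sparse K (d * s + κ) (NearV G κ Good) := by
  obtain ⟨K, hK⟩ := Pool.Agent.N375.MV.nearG_count_unif (fun n : ℕ => (n : ℝ)) hG (s := s) (κ := κ) hs hκ hκ1 |C|
  refine ⟨|K|, abs_nonneg K, fun X hX => ?_⟩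
  have h1 := hK {n : ℕ | 1 ≤ n ∧ ¬ Good n} (sparse_set hs h) X hX
  refine le_trans ?_ (h1.trans (mul_le_mul_of_nonneg_right (le_abs_self K) (by positivity)))
  norm_cast
  apply card_le_card
  intro v hv
  have hv1 : v ∈ Icc 1 X ∧ ¬ NearV G κ Good v := by
    simpa only [Finset.mem_filter] using hv
  have hv2 : v ∈ Icc 1 X ∧ v ∈ NearG {n : ℕ | 1 ≤ n ∧ ¬ Good n} (fun n : ℕ => (n : ℝ)) G κ :=
    ⟨hv1.1, near_of_not hv1.2⟩
  simpa only [Finset.mem_filter] using hv2

/-- **Oppermann's intervals around functions of the values of polynomials at approximation vectors.** (1) There are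
`c, η > 0` such that for all functions `G` with steps bounded below by a positive constant and growth at most `v ^ d`, all
`κ ∈ [0, 1]`, all `k ≥ 1`, `D`, `r`, all `γ ∈ ℝ^r` and `τ > 0` there is a set `S` of real matrices with `k` rows and `r` columns
of Hausdorff dimension at most `(k - 1) r + (r + k - 1 + D (d (0.612 - 2 η) + κ)) / (1 + τ)` such that for all `α` outside `S`,
all polynomials `F` with integral coefficients of degree between `1` and `D` and all `c'`, for all large integer vectors `v`
with `‖(v α)_j - γ_j‖ ≤ c' |v| ^ (-τ)` for all `j`, the integer `F(v)` is not `0`, and with `w = |F(v)|` all `n ≥ 1` with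
`|n - G(w)| ≤ w ^ κ` satisfy `Opp c η n`: every interval `(a, b]` inside `[n ^ 2 - n, n ^ 2 + n]` with `b - a ≥ n ^ (1 - η)`
contains at least `c (b - a) / log n` primes. (2) Examples for `G`. -/
theorem result :
    (∃ c η : ℝ, 0 < c ∧ 0 < η ∧ ∀ (G : ℕ → ℝ) (d : ℝ), Expanding G d → ∀ κ : ℝ, 0 ≤ κ → κ ≤ 1 →
      ∀ k D r : ℕ, 1 ≤ k → ∀ (γ : Fin r → ℝ) (τ : ℝ), 0 < τ → ∃ S : Set (Fin k × Fin r → ℝ),
        dimH S ≤ ENNReal.ofReal (((k : ℝ) - 1) * r +
          (r + ((k : ℝ) - 1 + D * (d * (0.612 - 2 * η) + κ))) / (1 + τ)) ∧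
        ∀ α, α ∉ S → ∀ F : MvPolynomial (Fin k) ℤ, 1 ≤ F.totalDegree → F.totalDegree ≤ D → ∀ c' : ℝ, ∃ Q : ℝ,
          ∀ v : Fin k → ℤ, Q ≤ ‖v‖ → Near α γ v (c' * ‖v‖ ^ (-τ)) → MvPolynomial.eval v F ≠ 0 ∧
            ∀ n : ℕ, 1 ≤ n → |(n : ℝ) - G (MvPolynomial.eval v F).natAbs| ≤
              ((MvPolynomial.eval v F).natAbs : ℝ) ^ κ → Opp c η n) ∧
    (∀ α d : ℝ, 0 < α → 1 ≤ d → Expanding (fun v : ℕ => α * (v : ℝ) ^ d) d) := by
  refine ⟨?_, fun α d hα hd => expanding_pow hα hd⟩
  obtain ⟨c, η, C, hc, hη, hη1, hC⟩ := Pool.Agent.J6H45.PI.sparse_opp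
  have hη2 : η < 0.306 := hη1
  norm_num at hη2
  have hs : (0 : ℝ) ≤ 0.612 - 2 * η := by
    norm_num
    linarith
  refine ⟨c, η, hc, hη, fun G d hG κ hκ hκ1 k D r hk γ τ hτ => ?_⟩
  have hd : 1 ≤ d := hG.one_le
  obtain ⟨K, hK0, hK⟩ := sparse_near hs hC hG hκ hκ1
  refine Pool.Agent.J6H45.WF.approx_poly hk (s := d * (0.612 - 2 * η) + κ) (Good := NearV G κ (Opp c η))
    (add_nonneg (mul_nonneg (by linarith) hs) hκ)
    (fun δ hδ => ⟨K, fun X hX => (hK X hX).trans ?_⟩) D γ hτ
  refine mul_le_mul_of_nonneg_left ?_ hK0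
  exact Real.rpow_le_rpow_of_exponent_le (by exact_mod_cast hX) (by linarith)

end Pool.Agent.Results.MP_a8fbd7_nt.PolynomialsAtApproximations
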