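import Pool.Agent.J6H45.PI.Use

/-!
# Oppermann's intervals and sequences with a real parameter

For an integer `n ≥ 1` the property `Opp c η n` says that every interval `(a, b]` inside `[n ^ 2 - n, n ^ 2 + n]` of length at
least `n ^ (1 - η)` contains at least `c (b - a) / log n` primes. In particular the intervals `[n ^ 2 - n, n ^ 2]` and
`[n ^ 2, n ^ 2 + n]` of Oppermann contain at least `c n / log n` primes (`A (n), B (n) ≥ c n / log n`), a positive proportion of
the expected number `n / (2 log n)`, in every part of them.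

Let `f_l`, `l = 0, 1, 2, …`, be positive functions on `(x₀, ∞)`, `x₀ ≥ 0`, such that `f_l(x) / x` is nondecreasing and such
that the sequence `f_l(x)` has exponent of convergence at most `σ` for each `x > x₀`: for instance `f_l(x) = v_l x`
(dilatations; `σ` the exponent of convergence of `v_l > 0`), `f_l(x) = x ^ (v_l)` for exponents `v_l ≥ 1` (`σ = 0`), or the
orbits `f_l(x) = g (g (⋯ g (x)))` of any map `g` with `g(x) > x` and `g(x) / x` nondecreasing (`σ = 0`). For all `θ < 1` and all
`x > x₀` outside a set of Hausdorff dimension at most `(0.612 - 2 η + σ) / (1 - θ)` and each `c'`, for all but finitely many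
`l`, ALL the integers `n ≥ 1` with `|n - f_l(x)| ≤ c' f_l(x) ^ θ` have this property, with absolute constants `c, η > 0`.

For example: for all real `x > 1` outside a set of Hausdorff dimension less than `0.612` both intervals of Oppermann around
the square of `n = [x ^ l]` contain at least `c n / log n` primes for all large `l`; and for `σ = 1 / 3` (dilatations of the
cubes) the exceptional set of the `x` has dimension less than `0.946`.

Proof. (1) All poor intervals of length `X ^ (1 / 2 - η)` in `[1, X]` are near `O (X ^ (0.306 - η))` points; this is a theorem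
of the starting files (`Pool.Agent.Q278.KT`: Heath-Brown's identity and large values of Dirichlet polynomials; helper240,
helper278 and others), made for the multiplicative functions of sum zero and used only there. (2) So all integers `n ≤ X`
but `O (X ^ (0.612 - 2 η))` have the property `Opp c η` (`Pool.Agent.J6H45.PI.sparse_opp`). (3)
`Pool.Agent.R482.ST.windows` (helper482).
-/

set_option autoImplicit false

namespace Pool.Agent.Results.MP_a8fbd7_nt.SequencesWithAParameter

open Pool.Agent.J6H45.PI (Opp)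

/-- the functions `f l` are positive on `(a, ∞)`, `a ≥ 0`, and `f l x / x` is nondecreasing there -/
def Starshaped (a : ℝ) (f : ℕ → ℝ → ℝ) : Prop :=
  0 ≤ a ∧ ∀ l : ℕ, ∀ x y : ℝ, a < x → x ≤ y → 0 < f l x ∧ f l x / x ≤ f l y / y

/-- for each `x > a` the exponent of convergence of the sequence `f l x` is at most `σ` -/
def ExpLe (a : ℝ) (f : ℕ → ℝ → ℝ) (σ : ℝ) : Prop :=
  ∀ x : ℝ, a < x → ∀ t : ℝ, σ < t → Summable (fun l : ℕ => (f l x) ^ (-t))

/-- **Oppermann's intervals and sequences with a parameter.** There are `c, η > 0` such that for all starshaped functions `f_l`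
on `(x₀, ∞)` of exponent `σ` and all `θ < 1` there is a set `E` of Hausdorff dimension at most
`(0.612 - 2 η + σ) / (1 - θ)` such that for all `x > x₀` outside `E` and all `c'`, for all large `l`, all `n ≥ 1` with
`|n - f_l(x)| ≤ c' f_l(x) ^ θ` satisfy `Opp c η n`: every interval `(a, b]` inside `[n ^ 2 - n, n ^ 2 + n]` with
`b - a ≥ n ^ (1 - η)` contains at least `c (b - a) / log n` primes. The functions `v_l x`, `v_l > 0`, are starshaped on
`(0, ∞)`, of exponent `σ` if `v` has exponent of convergence at most `σ`; the functions `x ^ (v_l)`, `v_l ≥ 1`, are starshaped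
on `(1, ∞)`, of exponent `0` if the sums of `exp (-t v_l)` converge for `t > 0`; and the iterates of a map `g` with `g(x) > x`
for `x > x₀` and `g(x) / x` nondecreasing are starshaped on `(x₀, ∞)`, of exponent `0`. -/
theorem result :
    (∃ c η : ℝ, 0 < c ∧ 0 < η ∧ ∀ (f : ℕ → ℝ → ℝ) (x₀ σ θ : ℝ), Starshaped x₀ f → 0 ≤ σ → ExpLe x₀ f σ → θ < 1 →
      ∃ E : Set ℝ, dimH E ≤ ENNReal.ofReal ((0.612 - 2 * η + σ) / (1 - θ)) ∧
        ∀ x : ℝ, x₀ < x → x ∉ E → ∀ c' : ℝ, ∃ l₀ : ℕ, ∀ l : ℕ, l₀ ≤ l → ∀ n : ℕ, 1 ≤ n →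
          |(n : ℝ) - f l x| ≤ c' * (f l x) ^ θ → Opp c η n) ∧
    (∀ (v : ℕ → ℝ) (σ : ℝ), (∀ l, 0 < v l) → (∀ t : ℝ, σ < t → Summable (fun l : ℕ => (v l) ^ (-t))) →
      Starshaped 0 (fun l x => v l * x) ∧ ExpLe 0 (fun l x => v l * x) σ) ∧
    (∀ v : ℕ → ℝ, (∀ l, 1 ≤ v l) → (∀ t : ℝ, 0 < t → Summable fun l : ℕ => Real.exp (-(t * v l))) →
      Starshaped 1 (fun l x => x ^ (v l)) ∧ ExpLe 1 (fun l x => x ^ (v l)) 0) ∧
    (∀ (x₀ : ℝ) (g : ℝ → ℝ), 0 ≤ x₀ → (∀ x y : ℝ, x₀ < x → x ≤ y → g x / x ≤ g y / y) → (∀ x : ℝ, x₀ < x → x < g x) →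
      Starshaped x₀ (fun l x => g^[l] x) ∧ ExpLe x₀ (fun l x => g^[l] x) 0) := by
  refine ⟨?_, Pool.Agent.R482.ST.ex_mul, Pool.Agent.R482.ST.ex_pow, Pool.Agent.R482.ST.ex_orbit⟩
  obtain ⟨c, η, C, hc, hη, hη1, hC⟩ := Pool.Agent.J6H45.PI.sparse_opp
  have hη2 : η < 0.306 := hη1
  norm_num at hη2
  exact ⟨c, η, hc, hη, fun f x₀ σ θ hf hσ hv hθ => Pool.Agent.J6H45.WF.star (by
    norm_num
    linarith) hC hf hσ hv hθ⟩

end Pool.Agent.Results.MP_a8fbd7_nt.SequencesWithAParameter
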